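import Pool.Agent.W187.WQ.Stmts5

/-! # WQ-SHg and WQ-SHSH: the truncated symmetric shifts -/

set_option autoImplicit false

namespace Pool.Agent.W327.WQ

open MeasureTheory Set Pool.Agent.W187.WP Pool.Agent.W187.WQ

/-- indicator of a set inside `[-1, 1]` -/
lemma ind_gen (T : Set ℝ) (hT : MeasurableSet T) (f : ℝ → ℝ) :
    ∫ x in (-1 : ℝ)..1, T.indicator f x = ∫ x in Ioc (-1 : ℝ) 1 ∩ T, f x := by
  rw [intervalIntegral.integral_of_le (by norm_num), setIntegral_indicator hT]

lemma ind_Ici {c : ℝ} (hc : -1 < c) (hc1 : c ≤ 1) (f : ℝ → ℝ) :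
    ∫ x in (-1 : ℝ)..1, (Ici c).indicator f x = ∫ x in c..1, f x := by
  rw [ind_gen _ measurableSet_Ici, intervalIntegral.integral_of_le hc1,
    ← integral_Icc_eq_integral_Ioc]
  congr 2
  ext x
  simp only [mem_inter_iff, mem_Ioc, mem_Ici, mem_Icc]
  constructor
  · rintro ⟨⟨_, h2⟩, h3⟩
    exact ⟨h3, h2⟩
  · rintro ⟨h1, h2⟩
    exact ⟨⟨by linarith, h2⟩, h1⟩

lemma ind_Iic {d : ℝ} (hd : -1 ≤ d) (hd1 : d ≤ 1) (f : ℝ → ℝ) :
    ∫ x in (-1 : ℝ)..1, (Iic d).indicator f x = ∫ x in (-1 : ℝ)..d, f x := by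
  rw [ind_gen _ measurableSet_Iic, intervalIntegral.integral_of_le hd]
  congr 2
  ext x
  simp only [mem_inter_iff, mem_Ioc, mem_Iic]
  constructor
  · rintro ⟨⟨h1, _⟩, h3⟩
    exact ⟨h1, h3⟩
  · rintro ⟨h1, h2⟩
    exact ⟨⟨h1, by linarith⟩, h2⟩

lemma ind_Icc {c d : ℝ} (hc : -1 < c) (hd1 : d ≤ 1) (f : ℝ → ℝ) :
    ∫ x in (-1 : ℝ)..1, (Icc c d).indicator f x = if c < d then ∫ x in c..d, f x else 0 := by
  rw [ind_gen _ measurableSet_Icc]
  have h0 : Ioc (-1 : ℝ) 1 ∩ Icc c d = Icc c d := by
    ext x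
    simp only [mem_inter_iff, mem_Ioc, mem_Icc]
    constructor
    · rintro ⟨_, h3⟩
      exact h3
    · rintro ⟨h1, h2⟩
      exact ⟨⟨by linarith, by linarith⟩, h1, h2⟩
  rw [h0]
  split_ifs with h
  · rw [intervalIntegral.integral_of_le h.le, integral_Icc_eq_integral_Ioc]
  · rw [integral_Icc_eq_integral_Ioc, Ioc_eq_empty h, setIntegral_empty]

lemma int_ind {T : Set ℝ} (hT : MeasurableSet T) {f : ℝ → ℝ} (hf : Continuous f) :
    IntervalIntegrable (T.indicator f) volume (-1) 1 := by
  rw [intervalIntegrable_iff_integrableOn_Ioc_of_le (by norm_num)]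
  exact ((hf.integrableOn_Icc (a := -1) (b := 1)).mono_set Ioc_subset_Icc_self).indicator hT

theorem shg : S_SHg := by
  intro l s v w hl hl2 hs hv hw pv pw
  have hss : s * s = 1 := by rcases hs with rfl | rfl <;> norm_num
  have i1 : IntervalIntegrable (fun x => v x * w (x + l)) volume (-1 : ℝ) (1 - l) :=
    Continuous.intervalIntegrable (by fun_prop) _ _
  have i2 : IntervalIntegrable (fun x => w x * v (x + l)) volume (-1 : ℝ) (1 - l) :=
    Continuous.intervalIntegrable (by fun_prop) _ _
  have hA : ∫ x in (-1 : ℝ)..(1 - l), v x * w (x + l) = ∫ x in (l - 1)..1, w x * v (x - l) := by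
    have h1 := intervalIntegral.integral_comp_add_right (a := (-1 : ℝ)) (b := 1 - l)
      (fun u : ℝ => w u * v (u - l)) l
    rw [show (-1 : ℝ) + l = l - 1 by ring, show 1 - l + l = 1 by ring] at h1
    rw [← h1]
    refine intervalIntegral.integral_congr fun x _ => ?_
    show v x * w (x + l) = w (x + l) * v (x + l - l)
    rw [add_sub_cancel_right, mul_comm]
  have hB : ∫ x in (-1 : ℝ)..(1 - l), w x * v (x + l) = ∫ x in (l - 1)..1, w x * v (x - l) := by
    have h1 := intervalIntegral.integral_comp_neg (a := l - 1) (b := 1)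
      (fun u : ℝ => w u * v (u + l))
    rw [show -(l - 1) = 1 - l by ring] at h1
    rw [← h1]
    refine intervalIntegral.integral_congr fun x _ => ?_
    show w (-x) * v (-x + l) = w x * v (x - l)
    rw [show -x + l = -(x - l) by ring, pw x, pv (x - l)]
    linear_combination w x * v (x - l) * hss
  have hC : ∫ x in (-1 : ℝ)..1, w x * shf l v x = 2 * ∫ x in (l - 1)..1, w x * v (x - l) := by
    have h1 : ∀ x : ℝ, w x * shf l v x = (Ici (l - 1)).indicator (fun x => w x * v (x - l)) x +
        (Iic (1 - l)).indicator (fun x => w x * v (x + l)) x := by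
      intro x
      unfold shf
      simp only [indicator_apply, mem_Ici, mem_Iic]
      rw [mul_add, mul_ite, mul_ite, mul_zero]
    simp_rw [h1]
    rw [intervalIntegral.integral_add (int_ind measurableSet_Ici (by fun_prop))
      (int_ind measurableSet_Iic (by fun_prop)), ind_Ici (by linarith) (by linarith),
      ind_Iic (by linarith) (by linarith), hB]
    ring
  refine ⟨?_, hC⟩
  rw [intervalIntegral.integral_add i1 i2, hA, hB, hC]
  ring

theorem shsh : S_SHSH := by
  intro l l' s v w hl hl2 hl' hl2' hs hv hw pv pw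
  have hss : s * s = 1 := by rcases hs with rfl | rfl <;> norm_num
  have hm0 : 0 < max l l' := lt_max_of_lt_left hl
  have hm2 : max l l' < 2 := max_lt hl2 hl2'
  have h1 : ∀ x : ℝ, shf l v x * shf l' w x =
      (Ici (max l l' - 1)).indicator (fun x => v (x - l) * w (x - l')) x +
      (Iic (1 - max l l')).indicator (fun x => v (x + l) * w (x + l')) x +
      (Icc (l - 1) (1 - l')).indicator (fun x => v (x - l) * w (x + l')) x +
      (Icc (l' - 1) (1 - l)).indicator (fun x => v (x + l) * w (x - l')) x := by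
    intro x
    have e1 : max l l' - 1 ≤ x ↔ l - 1 ≤ x ∧ l' - 1 ≤ x := by
      rw [sub_le_iff_le_add, max_le_iff, sub_le_iff_le_add, sub_le_iff_le_add]
    have e2 : x ≤ 1 - max l l' ↔ x ≤ 1 - l ∧ x ≤ 1 - l' := by
      rw [le_sub_comm, max_le_iff, le_sub_comm, le_sub_comm (a := l')]
    unfold shf
    simp only [indicator_apply, mem_Ici, mem_Iic, mem_Icc, e1, e2]
    by_cases a1 : l - 1 ≤ x <;> by_cases a2 : l' - 1 ≤ x <;> by_cases a3 : x ≤ 1 - l <;>
      by_cases a4 : x ≤ 1 - l' <;> simp [a1, a2, a3, a4] <;> ring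
  simp_rw [h1]
  have j1 := int_ind (T := Ici (max l l' - 1)) measurableSet_Ici
    (f := fun x => v (x - l) * w (x - l')) (by fun_prop)
  have j2 := int_ind (T := Iic (1 - max l l')) measurableSet_Iic
    (f := fun x => v (x + l) * w (x + l')) (by fun_prop)
  have j3 := int_ind (T := Icc (l - 1) (1 - l')) measurableSet_Icc
    (f := fun x => v (x - l) * w (x + l')) (by fun_prop)
  have j4 := int_ind (T := Icc (l' - 1) (1 - l)) measurableSet_Icc
    (f := fun x => v (x + l) * w (x - l')) (by fun_prop)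
  rw [intervalIntegral.integral_add ((j1.add j2).add j3) j4,
    intervalIntegral.integral_add (j1.add j2) j3, intervalIntegral.integral_add j1 j2,
    ind_Ici (by linarith) (by linarith), ind_Iic (by linarith) (by linarith),
    ind_Icc (by linarith) (by linarith), ind_Icc (by linarith) (by linarith)]
  have hB : ∫ x in (-1 : ℝ)..(1 - max l l'), v (x + l) * w (x + l') =
      ∫ x in (max l l' - 1)..1, v (x - l) * w (x - l') := by
    have h1 := intervalIntegral.integral_comp_neg (a := max l l' - 1) (b := 1)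
      (fun u : ℝ => v (u + l) * w (u + l'))
    rw [show -(max l l' - 1) = 1 - max l l' by ring] at h1
    rw [← h1]
    refine intervalIntegral.integral_congr fun x _ => ?_
    show v (-x + l) * w (-x + l') = v (x - l) * w (x - l')
    rw [show -x + l = -(x - l) by ring, show -x + l' = -(x - l') by ring, pv (x - l), pw (x - l')]
    linear_combination v (x - l) * w (x - l') * hss
  have hD : ∫ x in (l' - 1)..(1 - l), v (x + l) * w (x - l') =
      ∫ x in (l - 1)..(1 - l'), v (x - l) * w (x + l') := by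
    have h1 := intervalIntegral.integral_comp_neg (a := l - 1) (b := 1 - l')
      (fun u : ℝ => v (u + l) * w (u - l'))
    rw [show -(l - 1) = 1 - l by ring, show -(1 - l') = l' - 1 by ring] at h1
    rw [← h1]
    refine intervalIntegral.integral_congr fun x _ => ?_
    show v (-x + l) * w (-x - l') = v (x - l) * w (x + l')
    rw [show -x + l = -(x - l) by ring, show -x - l' = -(x + l') by ring, pv (x - l), pw (x + l')]
    linear_combination v (x - l) * w (x + l') * hss
  rw [hB, hD]
  by_cases h : l + l' < 2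
  · rw [if_pos (by linarith : l - 1 < 1 - l'), if_pos (by linarith : l' - 1 < 1 - l), if_pos h]
    ring
  · rw [if_neg (by linarith : ¬ l - 1 < 1 - l'), if_neg (by linarith : ¬ l' - 1 < 1 - l),
      if_neg h]
    ring

end Pool.Agent.W327.WQ
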